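import Pool.Agent.WAQ.StmtsL
import Pool.Agent.WAQ.Alg

set_option autoImplicit false

/-!
# WAQ, row MZZ: the slope coordinate and the sizes near the origin
-/

namespace Pool.Agent.WAQ.H62

open Classical WeierstrassCurve.Affine

variable [Par]

/-- Data of a nonzero point in the kernel of reduction. -/
theorem mzz_aux (ccn : CcnStmt) (zeq : ZeqStmt) {F : Type} [NormedField F]
    {ϖ : ℤ} (hloc : IsLoc F ϖ) {d : F} (hd : d ≠ 0) {P : Pt d} (hP : P ≠ 0)
    (hB : Big 1 P) : ‖cX P / d‖ * (‖d‖ * ‖zs P‖ ^ 2) = 1 ∧ yn P ≠ 0 ∧ zs P ≠ 0 ∧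
      ∃ u : F, zs P = zc P * u ∧ ‖u‖ = 1 ∧ ‖u - 1‖ ≤ ‖d‖ * ‖zs P‖ ^ 2 := by
  have hdn : 0 < ‖d‖ := norm_pos_iff.2 hd
  have h1 : 1 < ‖cX P / d‖ := by
    rcases hB with h | h
    · exact absurd h hP
    · exact h
  rcases P with _ | ⟨X, Y, hXY⟩
  · exact absurd rfl hP
  · have e1 : cX (Point.some X Y hXY : Pt d) = X := rfl
    have e2 : zs (Point.some X Y hXY : Pt d) = (X - d * cc F) / Y := rfl
    have e3 : yn (Point.some X Y hXY : Pt d) = Y / d ^ 2 := rfl
    have e4 : zc (Point.some X Y hXY : Pt d) = X / Y := rfl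
    rw [e1] at h1
    have h2 : ‖d‖ < ‖X‖ := by
      rw [norm_div, lt_div_iff₀ hdn] at h1
      linarith
    obtain ⟨hY, hX, -, -, -, hXc⟩ := zeq F ϖ hloc d X Y hd hXY h2
    have hXn : 0 < ‖X‖ := hdn.trans h2
    have hX0 : X ≠ 0 := norm_pos_iff.1 hXn
    have hz0 : (X - d * cc F) / Y ≠ 0 := by
      intro h0
      rw [h0, norm_zero] at hX
      norm_num at hX
    rw [e1, e2, e3, e4]
    refine ⟨?_, div_ne_zero hY (pow_ne_zero 2 hd), hz0, (X - d * cc F) / X, ?_, ?_, ?_⟩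
    · rw [norm_div X d]
      have : ‖X‖ / ‖d‖ * (‖d‖ * ‖(X - d * cc F) / Y‖ ^ 2) = ‖X‖ * ‖(X - d * cc F) / Y‖ ^ 2 := by
        field_simp
      rw [this, hX]
    · field_simp
    · rw [norm_div, hXc, div_self hXn.ne']
    · have e5 : (X - d * cc F) / X - 1 = -(d * cc F / X) := by
        field_simp
        ring
      have e6 : ‖(X - d * cc F) / Y‖ ^ 2 = 1 / ‖X‖ := by
        rw [eq_div_iff hXn.ne', mul_comm]
        exact hX
      rw [e5, norm_neg, norm_div, norm_mul, e6, mul_one_div]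
      apply div_le_div_of_nonneg_right _ hXn.le
      calc ‖d‖ * ‖cc F‖ ≤ ‖d‖ * 1 := mul_le_mul_of_nonneg_left (ccn F ϖ hloc).1 hdn.le
        _ = ‖d‖ := mul_one _

/-- Row MZZ. -/
theorem mzz (ccn : CcnStmt) (zeq : ZeqStmt) : MzzStmt := by
  intro F _ ϖ hloc d hd P Q
  refine ⟨?_, ?_, ?_, ?_⟩
  · intro h
    obtain ⟨_, hP, hQ⟩ := G.yn_ne_of_onU h
    have hP0 : P ≠ 0 := by rintro rfl; exact hP yn_zero
    have hQ0 : Q ≠ 0 := by rintro rfl; exact hQ yn_zero
    exact ⟨hP0, hQ0⟩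
  · intro hP hBP hQ hBQ
    obtain ⟨-, hyP, hzP, u, hu1, hu2, hu3⟩ := mzz_aux ccn zeq hloc hd hP hBP
    obtain ⟨-, hyQ, hzQ, v, hv1, hv2, hv3⟩ := mzz_aux ccn zeq hloc hd hQ hBQ
    have hU := G.onU_kum hd hyP hyQ
    have hu0 : u ≠ 0 := by
      intro h0
      rw [h0, norm_zero] at hu2
      exact zero_ne_one hu2
    have hv0 : v ≠ 0 := by
      intro h0
      rw [h0, norm_zero] at hv2
      exact zero_ne_one hv2
    have hcP : zc P ≠ 0 := by
      intro h0
      rw [h0, zero_mul] at hu1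
      exact hzP hu1
    have hm : mz (kum d P Q) = zs Q / zs P * (u / v) := by
      rw [G.mz_kum hU, hu1, hv1]
      field_simp
    refine ⟨hzP, hzQ, hU, ?_, ?_⟩
    · rw [hm, norm_mul, norm_div u v, hu2, hv2, div_one, mul_one]
    · have e1 : mz (kum d P Q) - zs Q / zs P = zs Q / zs P * (((u - 1) + (1 - v)) / v) := by
        rw [hm]
        field_simp
        ring
      rw [e1, norm_mul]
      apply mul_le_mul_of_nonneg_left _ (norm_nonneg _)
      rw [norm_div, hv2, div_one]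
      refine (hloc.ultra _ _).trans (max_le ?_ ?_)
      · refine hu3.trans (mul_le_mul_of_nonneg_left ?_ (norm_nonneg _))
        exact pow_le_pow_left₀ (norm_nonneg _) (le_max_left _ _) 2
      · rw [norm_sub_rev]
        refine hv3.trans (mul_le_mul_of_nonneg_left ?_ (norm_nonneg _))
        exact pow_le_pow_left₀ (norm_nonneg _) (le_max_right _ _) 2
  · intro hP hB
    exact (mzz_aux ccn zeq hloc hd hP hB).1
  · intro hQ hB
    exact (mzz_aux ccn zeq hloc hd hQ hB).1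

end Pool.Agent.WAQ.H62
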