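import Pool.Agent.WAQ.StmtsR
import Pool.Agent.WAQ.StmtsT

set_option autoImplicit false

/-!
# WAQ, row RTF: finitely many torsion points of a given order (real place)
-/

namespace Pool.Agent.WAQ.H62

open Pool.Agent.WAQ Pool.Agent.WAQ.R

attribute [local instance 10000] Classical.propDecidable

theorem rtf [Par] (rsm : RsmStmt) (zsm : ZsmStmt) (hG : GoodF ℝ) : RtfStmt := by
  intro d hd a ha
  by_contra hcon
  have hinf : {P : Pt d | sm a P = 0}.Infinite := hcon
  obtain ⟨N0, hN0⟩ := zsm ℝ hG d hd a (1 / 2) (by norm_num)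
  obtain ⟨P, hPS, hP0, hPB⟩ := rsm d hd {P : Pt d | sm a P = 0} hinf
    (fun P hP Q hQ => by
      show sm a (P - Q) = 0
      have h1 : sm a P = 0 := hP
      have h2 : sm a Q = 0 := hQ
      rw [G.sm_sub, h1, h2, sub_zero]) (max N0 (|ea ℝ| + |eb ℝ|))
  have hP1 : sm a P = 0 := hPS
  have hN : max N0 (|ea ℝ| + |eb ℝ|) < ‖cX P / d‖ := by
    rcases hPB with h | h
    · exact absurd h hP0
    · exact h
  have hB : Big N0 P := Or.inr (lt_of_le_of_lt (le_max_left _ _) hN)
  have hM : |ea ℝ| + |eb ℝ| < ‖cX P / d‖ := lt_of_le_of_lt (le_max_right _ _) hN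
  have h1 := hN0 P hB
  have h2 : cz (0 : Pt d) = 0 := by
    show (0 : ℝ) / 0 = 0
    simp
  rw [hP1, h2, zero_sub, norm_neg, norm_mul] at h1
  have h3 : (1 : ℝ) ≤ ‖am ℝ a‖ := by
    rw [am_apply, Real.norm_eq_abs, ← Int.cast_abs]
    exact_mod_cast Int.one_le_abs ha
  have h4 : ‖cz P‖ = 0 := by
    have h5 := norm_nonneg (cz P)
    nlinarith
  have h6 : cX P / cY P = 0 := norm_eq_zero.1 h4
  rcases div_eq_zero_iff.1 h6 with h7 | h7
  · rw [h7, zero_div, norm_zero] at hM
    have := abs_nonneg (ea ℝ)
    have := abs_nonneg (eb ℝ)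
    linarith
  · rcases P with _ | ⟨X, Y, hXY⟩
    · exact hP0 rfl
    · have e1 : cX (WeierstrassCurve.Affine.Point.some X Y hXY : Pt d) = X := rfl
      have e2 : Y = 0 := h7
      rw [e1] at hM
      have e3 := ((W_nonsing_iff d X Y).1 hXY).1
      rw [e2] at e3
      have e4 : X / d = 0 ∨ X / d = ea ℝ ∨ X / d = eb ℝ := by
        have e5 : X * (X - d * ea ℝ) * (X - d * eb ℝ) = 0 := by
          rw [← e3]
          ring
        rcases mul_eq_zero.1 e5 with e6 | e6
        · rcases mul_eq_zero.1 e6 with e7 | e7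
          · left
            rw [e7, zero_div]
          · right
            left
            rw [div_eq_iff hd]
            linarith
        · right
          right
          rw [div_eq_iff hd]
          linarith
      have := abs_nonneg (ea ℝ)
      have := abs_nonneg (eb ℝ)
      rcases e4 with e5 | e5 | e5
      · rw [e5, norm_zero] at hM
        linarith
      · rw [e5, Real.norm_eq_abs] at hM
        linarith
      · rw [e5, Real.norm_eq_abs] at hM
        linarith

end Pool.Agent.WAQ.H62
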